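import Pool.Agent.Helper38.FRX.Goals

/-!
# Project FRX, packet TCHC: the number of the parts which meet a set
-/

set_option autoImplicit false

namespace Pool.Agent.Helper76.FRX

open Finset Pool.Agent.Helper55.FR Pool.Agent.Helper38.FRX

/-- In a part which is not on one side of `D` there is an edge to the parent which crosses `D`. -/
lemma exists_cross {V : Type} (κ par : V → V) (dep : V → ℕ) (D : Finset V)
    (kp : ∀ x, κ (par x) = κ x) (dp : ∀ x, x ≠ κ x → dep (par x) < dep x) :
    ∀ (k : ℕ) (u : V), dep u ≤ k → ¬ (κ u ∈ D ↔ u ∈ D) →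
      ∃ y, κ y = κ u ∧ y ≠ κ y ∧ ¬ (y ∈ D ↔ par y ∈ D) := by
  intro k
  induction k with
  | zero =>
    intro u hu hc
    by_cases h1 : u = κ u
    · exact absurd (by rw [← h1]) hc
    · have := dp u h1
      omega
  | succ k ih =>
    intro u hu hc
    by_cases h1 : u = κ u
    · exact absurd (by rw [← h1]) hc
    · by_cases h2 : u ∈ D ↔ par u ∈ D
      · have h3 := dp u h1
        obtain ⟨y, hy1, hy2, hy3⟩ := ih (par u) (by omega) (by
          rw [kp, ← h2]
          exact hc)
        exact ⟨y, hy1.trans (kp u), hy2, hy3⟩
      · exact ⟨u, rfl, h1, h2⟩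

/-- TCHC. -/
theorem tchc : Pool.Agent.Helper38.FRX.TchcStmt := by
  classical
  intro V _ _ n m E L κ par dep hmm hE hP D
  let Bs : V → Finset V := fun s => univ.filter fun x => κ x = s
  set S := D.image κ with hS
  by_cases hone : ∃ x, ∀ y, κ y = κ x
  · obtain ⟨x, hx⟩ := hone
    have h1 : S ⊆ {κ x} := by
      intro s hs
      rw [hS, mem_image] at hs
      obtain ⟨y, _, rfl⟩ := hs
      rw [mem_singleton]
      exact hx y
    have h2 : S.card ≤ 1 := by
      have := card_le_card h1
      rwa [card_singleton] at this
    have h3 : L * S.card ≤ L * (1 + 2 * (Xr n D).card + (E ∩ Ym m D).card) := by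
      apply Nat.mul_le_mul_left
      omega
    omega
  · have hlo : ∀ x, L ≤ (univ.filter fun y => κ y = κ x).card := by
      intro x
      rcases hP.lo x with h | h
      · exact h
      · exact absurd ⟨x, h⟩ hone
    set A := S.filter fun s => Bs s ⊆ D with hA
    set A' := S.filter fun s => ¬ Bs s ⊆ D with hA'
    have hsplit : A.card + A'.card = S.card := card_filter_add_card_filter_not _
    have h1 : L * A.card ≤ D.card := by
      have h2 : A.biUnion Bs ⊆ D := by
        intro x hx
        rw [mem_biUnion] at hx
        obtain ⟨s, hs, hx⟩ := hx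
        rw [hA, mem_filter] at hs
        exact hs.2 hx
      refine le_trans ?_ (card_le_card h2)
      rw [card_biUnion]
      · calc L * A.card = ∑ _s ∈ A, L := by rw [sum_const, smul_eq_mul, mul_comm]
          _ ≤ ∑ s ∈ A, (Bs s).card := by
            apply sum_le_sum
            intro s hs
            rw [hA, mem_filter, hS, mem_image] at hs
            obtain ⟨⟨v, _, rfl⟩, _⟩ := hs
            exact hlo v
      · intro s _ s' _ hne
        rw [Function.onFun, disjoint_left]
        intro x hx hx'
        simp only [Bs, mem_filter, mem_univ, true_and] at hx hx'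
        exact hne (hx.symm.trans hx')
    have h3 : A'.card ≤ 2 * (Xr n D).card + (E ∩ Ym m D).card := by
      have h4 : ∀ s ∈ A', ∃ x, x ∈ ((Xr n D).image n ∪ Xr n D) ∪ (E ∩ Ym m D) ∧ κ x = s := by
        intro s hs
        rw [hA', mem_filter, hS, mem_image] at hs
        obtain ⟨⟨v, hv, rfl⟩, hns⟩ := hs
        rw [not_subset] at hns
        obtain ⟨w, hw, hwD⟩ := hns
        simp only [Bs, mem_filter, mem_univ, true_and] at hw
        have key : ∀ u : V, κ u = κ v → ¬ (κ v ∈ D ↔ u ∈ D) →
            ∃ x, x ∈ ((Xr n D).image n ∪ Xr n D) ∪ (E ∩ Ym m D) ∧ κ x = κ v := by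
          intro u hu hch
          obtain ⟨y, hy1, hy2, hy3⟩ := exists_cross κ par dep D hP.kp hP.dp (dep u) u le_rfl (by
            rw [hu]
            exact hch)
          refine ⟨y, ?_, hy1.trans hu⟩
          rcases hP.rp y hy2 with h5 | h5 | ⟨h5, h6⟩
          · rw [mem_union, mem_union, mem_image]
            refine Or.inl (Or.inl ⟨par y, ?_, h5.symm⟩)
            unfold Xr
            rw [mem_filter]
            refine ⟨mem_univ _, ?_⟩
            rw [← h5]
            exact fun h => hy3 h.symm
          · rw [mem_union, mem_union]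
            refine Or.inl (Or.inr ?_)
            unfold Xr
            rw [mem_filter]
            refine ⟨mem_univ _, ?_⟩
            rw [← h5]
            exact hy3
          · rw [mem_union]
            refine Or.inr ?_
            rw [mem_inter]
            have h7 : m y = par y := (congrArg m h5).trans (hmm (par y))
            refine ⟨?_, ?_⟩
            · have h8 := (hE (par y)).1 h6
              rwa [← h5] at h8
            · unfold Ym
              rw [mem_filter]
              refine ⟨mem_univ _, ?_⟩
              rw [h7]
              exact hy3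
        by_cases hsD : κ v ∈ D
        · exact key w hw (fun h => hwD (h.1 hsD))
        · exact key v rfl (fun h => hsD (h.2 hv))
      choose! x hx using h4
      have h5 : A'.card ≤ (((Xr n D).image n ∪ Xr n D) ∪ (E ∩ Ym m D)).card := by
        refine card_le_card_of_injOn x (fun s hs => (hx s hs).1) ?_
        intro s hs s' hs' h
        rw [← (hx s hs).2, ← (hx s' hs').2, h]
      have h6 := card_union_le ((Xr n D).image n ∪ Xr n D) (E ∩ Ym m D)
      have h7 := card_union_le ((Xr n D).image n) (Xr n D)
      have h8 : ((Xr n D).image n).card ≤ (Xr n D).card := card_image_le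
      omega
    have h5 := Nat.mul_le_mul_left L h3
    have h6 : L * (2 * (Xr n D).card + (E ∩ Ym m D).card) ≤
        L * (1 + 2 * (Xr n D).card + (E ∩ Ym m D).card) := by
      apply Nat.mul_le_mul_left
      omega
    calc L * S.card = L * A.card + L * A'.card := by rw [← hsplit, mul_add]
      _ ≤ D.card + L * (1 + 2 * (Xr n D).card + (E ∩ Ym m D).card) :=
        add_le_add h1 (h5.trans h6)

end Pool.Agent.Helper76.FRX
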